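import Mathlib

set_option autoImplicit false

namespace Pool.Agent.Results.MP_4f9fa7_an.Hexagon

variable (X : Type) [NormedAddCommGroup X] [NormedSpace ℝ X]

/-- The modulus `ζ⁺`. -/
noncomputable def zetaP (ε : ℝ) : ℝ :=
  sSup {t | ∃ x y : X, ‖x‖ = 1 ∧ ‖y‖ = 1 ∧ (∃ p : X →L[ℝ] ℝ, ‖p‖ = 1 ∧ p x = 1 ∧ p y = 0) ∧
    t = ‖x + ε • y‖}

/-- Milman's modulus `β⁺`. -/
noncomputable def betaP (ε : ℝ) : ℝ :=
  sSup {t | ∃ x y : X, ‖x‖ = 1 ∧ ‖y‖ = 1 ∧ t = min ‖x + ε • y‖ ‖x - ε • y‖ - 1}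

/-- The plane with the hexagonal norm. -/
def H : Submodule ℝ (Fin 3 → ℝ) where
  carrier := {v | v 0 + v 1 + v 2 = 0}
  add_mem' := fun {a b} ha hb => by simp only [Set.mem_ofPred_eq, Pi.add_apply] at *; linarith
  zero_mem' := by simp
  smul_mem' := fun c v hv => by
    simp only [Set.mem_ofPred_eq, Pi.smul_apply, smul_eq_mul] at *
    linear_combination c * hv

theorem nrm (v : H) : ‖v‖ = max |v.1 0| (max |v.1 1| |v.1 2|) := by
  refine le_antisymm ((pi_norm_le_iff_of_nonneg (by positivity)).2 fun i => ?_)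
    (max_le (norm_le_pi_norm v.1 0) (max_le (norm_le_pi_norm v.1 1) (norm_le_pi_norm v.1 2)))
  fin_cases i <;> simp

theorem result : ∃ (X : Type) (_ : NormedAddCommGroup X) (_ : NormedSpace ℝ X),
    CompleteSpace X ∧ Module.finrank ℝ X = 2 ∧ zetaP X 1 = 2 ∧ betaP X 1 ≤ 1 / 2 ∧
      zetaP X 1 - 1 ≠ betaP X 1 := by
  have n1 : ‖(⟨![1, 0, -1], by simp [H]⟩ : H)‖ = 1 := by rw [nrm]; simp
  have h1 : zetaP H 1 = 2 := by
    refine IsGreatest.csSup_eq ⟨⟨⟨![1, 0, -1], by simp [H]⟩, ⟨![0, 1, -1], by simp [H]⟩,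
      n1, by rw [nrm]; simp, ⟨(ContinuousLinearMap.proj 0).comp H.subtypeL, ?_, rfl, rfl⟩,
      by rw [nrm]; simp; norm_num⟩, ?_⟩
    · refine le_antisymm (ContinuousLinearMap.opNorm_le_bound _ zero_le_one fun v => ?_) ?_
      · rw [one_mul]; exact norm_le_pi_norm v.1 0
      · have := ((ContinuousLinearMap.proj (R := ℝ) (φ := fun _ : Fin 3 => ℝ) 0).comp
          H.subtypeL).le_opNorm ⟨![1, 0, -1], by simp [H]⟩
        rw [n1] at this
        simpa using this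
    · rintro _ ⟨x, y, a, b, -, rfl⟩
      refine (norm_add_le _ _).trans ?_
      rw [one_smul, a, b]
      norm_num
  have h2 : betaP H 1 ≤ 1 / 2 := by
    refine Real.sSup_le ?_ (by norm_num)
    rintro _ ⟨x, y, a, b, rfl⟩
    have a' := a.le
    have b' := b.le
    have c : x.1 0 + x.1 1 + x.1 2 = 0 := x.2
    have d : y.1 0 + y.1 1 + y.1 2 = 0 := y.2
    rw [sub_le_iff_le_add, min_le_iff]
    by_contra! h
    simp only [nrm, max_le_iff, lt_max_iff, abs_le, lt_abs, one_smul, Submodule.coe_add,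
      Submodule.coe_sub, Pi.add_apply, Pi.sub_apply] at a' b' h
    obtain ⟨(h | h) | (h | h) | h | h, (k | k) | (k | k) | k | k⟩ := h <;> linarith
  refine ⟨H, inferInstance, inferInstance, FiniteDimensional.complete ℝ H, ?_, h1, h2, fun h => by linarith⟩
  set φ : (Fin 3 → ℝ) →ₗ[ℝ] ℝ := ∑ i : Fin 3, LinearMap.proj i with hφ
  have e : H = LinearMap.ker φ := by ext v; simp [H, hφ, Fin.sum_univ_three]
  have := LinearMap.finrank_range_add_finrank_ker φ
  rw [← e, LinearMap.range_eq_top.2 fun t => ⟨![t, 0, 0], by simp [hφ, Fin.sum_univ_three]⟩] at this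
  simp at this
  omega

end Pool.Agent.Results.MP_4f9fa7_an.Hexagon
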